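import Pool.Agent.Helper25.FN.Spec

set_option autoImplicit false

namespace Pool.Agent.Helper71.FN.EXT

open Pool.Agent.Helper25.FN MeasureTheory
open Pool.Agent.Helper25.FB.Inj (Entire IsAF FBorel ExpType InPerp star InPStarExp)

theorem nm_nonneg {n : ℕ} (z : V n) : 0 ≤ nm z := Real.sqrt_nonneg _

theorem norm_le_nm {n : ℕ} (z : V n) : ‖z‖ ≤ nm z := by
  rw [pi_norm_le_iff_of_nonneg (nm_nonneg z)]
  intro i
  refine Real.le_sqrt_of_sq_le ?_
  exact Finset.single_le_sum (f := fun j => ‖z j‖ ^ 2) (fun j _ => sq_nonneg _) (Finset.mem_univ i)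

theorem nm_le_norm {n : ℕ} (z : V n) : nm z ≤ √(n : ℝ) * ‖z‖ := by
  unfold nm
  rw [Real.sqrt_le_iff]
  refine ⟨mul_nonneg (Real.sqrt_nonneg _) (norm_nonneg _), ?_⟩
  rw [mul_pow, Real.sq_sqrt (Nat.cast_nonneg n)]
  have h1 : ∑ j, ‖z j‖ ^ 2 ≤ ∑ _j : Fin n, ‖z‖ ^ 2 :=
    Finset.sum_le_sum fun j _ => pow_le_pow_left₀ (norm_nonneg _) (norm_le_pi_norm z j) 2
  simpa using h1

/-- normalised constants -/
theorem exp_norm {n : ℕ} {f : V n → ℂ} (h : ExpType f) :
    ∃ C B : ℝ, 0 ≤ C ∧ 0 ≤ B ∧ ∀ z, ‖f z‖ ≤ C * Real.exp (B * ‖z‖) := by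
  obtain ⟨-, C, B, hCB⟩ := h
  refine ⟨|C|, |B|, abs_nonneg _, abs_nonneg _, fun z => (hCB z).trans ?_⟩
  have h1 : C * Real.exp (B * ‖z‖) ≤ |C| * Real.exp (B * ‖z‖) :=
    mul_le_mul_of_nonneg_right (le_abs_self C) (Real.exp_pos _).le
  refine h1.trans (mul_le_mul_of_nonneg_left ?_ (abs_nonneg _))
  exact Real.exp_le_exp.2 (mul_le_mul_of_nonneg_right (le_abs_self B) (norm_nonneg _))

theorem exp_add {n : ℕ} {f g : V n → ℂ} (hf : ExpType f) (hg : ExpType g) :
    ExpType (fun z => f z + g z) := by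
  obtain ⟨C₁, B₁, hC₁, hB₁, h₁⟩ := exp_norm hf
  obtain ⟨C₂, B₂, hC₂, hB₂, h₂⟩ := exp_norm hg
  refine ⟨Differentiable.fun_add hf.1 hg.1, C₁ + C₂, B₁ + B₂, fun z => ?_⟩
  have e1 : Real.exp (B₁ * ‖z‖) ≤ Real.exp ((B₁ + B₂) * ‖z‖) :=
    Real.exp_le_exp.2 (mul_le_mul_of_nonneg_right (by linarith) (norm_nonneg _))
  have e2 : Real.exp (B₂ * ‖z‖) ≤ Real.exp ((B₁ + B₂) * ‖z‖) :=
    Real.exp_le_exp.2 (mul_le_mul_of_nonneg_right (by linarith) (norm_nonneg _))
  calc ‖f z + g z‖ ≤ ‖f z‖ + ‖g z‖ := norm_add_le _ _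
    _ ≤ C₁ * Real.exp (B₁ * ‖z‖) + C₂ * Real.exp (B₂ * ‖z‖) := add_le_add (h₁ z) (h₂ z)
    _ ≤ C₁ * Real.exp ((B₁ + B₂) * ‖z‖) + C₂ * Real.exp ((B₁ + B₂) * ‖z‖) :=
      add_le_add (mul_le_mul_of_nonneg_left e1 hC₁) (mul_le_mul_of_nonneg_left e2 hC₂)
    _ = (C₁ + C₂) * Real.exp ((B₁ + B₂) * ‖z‖) := by ring

theorem exp_mul {n : ℕ} {f g : V n → ℂ} (hf : ExpType f) (hg : ExpType g) :
    ExpType (fun z => f z * g z) := by
  obtain ⟨C₁, B₁, hC₁, hB₁, h₁⟩ := exp_norm hf
  obtain ⟨C₂, B₂, hC₂, hB₂, h₂⟩ := exp_norm hg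
  refine ⟨Differentiable.fun_mul hf.1 hg.1, C₁ * C₂, B₁ + B₂, fun z => ?_⟩
  rw [norm_mul]
  calc ‖f z‖ * ‖g z‖ ≤ (C₁ * Real.exp (B₁ * ‖z‖)) * (C₂ * Real.exp (B₂ * ‖z‖)) :=
        mul_le_mul (h₁ z) (h₂ z) (norm_nonneg _) (mul_nonneg hC₁ (Real.exp_pos _).le)
    _ = C₁ * C₂ * Real.exp ((B₁ + B₂) * ‖z‖) := by rw [add_mul, Real.exp_add]; ring

theorem exp_const {n : ℕ} (c : ℂ) : ExpType (fun _ : V n => c) := by
  refine ⟨differentiable_const c, ‖c‖, 0, fun z => ?_⟩
  simp

theorem exp_coord {n : ℕ} (i : Fin n) : ExpType (fun z : V n => z i) := by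
  refine ⟨differentiable_apply i, 1, 1, fun z => ?_⟩
  have h1 := norm_le_pi_norm z i
  have h2 := Real.add_one_le_exp (1 * ‖z‖)
  have h3 := norm_nonneg z
  rw [one_mul] at h2 ⊢
  rw [one_mul]
  linarith

theorem exp_poly {n : ℕ} (P : Pol n) : ExpType (fun z => MvPolynomial.eval z P) := by
  induction P using MvPolynomial.induction_on with
  | C a => simpa using exp_const (n := n) a
  | add p q hp hq => simpa using exp_add hp hq
  | mul_X p i hp => simpa using exp_mul hp (exp_coord i)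

theorem exp_sub {n : ℕ} {f g : V n → ℂ} (hf : ExpType f) (hg : ExpType g) :
    ExpType (fun z => f z - g z) := by
  have h := exp_add hf (exp_mul (exp_const (n := n) (-1)) hg)
  have e : (fun z => f z + -1 * g z) = fun z => f z - g z := by
    funext z; ring
  rwa [e] at h

theorem exp_sum {n : ℕ} {ι : Type} (s : Finset ι) (F : ι → V n → ℂ) (h : ∀ i, ExpType (F i)) :
    ExpType (fun z => ∑ i ∈ s, F i z) := by
  classical
  induction s using Finset.induction_on with
  | empty => simpa using exp_const (n := n) 0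
  | insert a s ha ih =>
    have := exp_add (h a) ih
    simpa [Finset.sum_insert ha] using this

theorem exp_fderiv {n : ℕ} {f : V n → ℂ} (hf : ExpType f) (j : Fin n) :
    ∃ C B : ℝ, ∀ z, ‖fderiv ℂ f z (Pi.single j 1)‖ ≤ C * Real.exp (B * ‖z‖) := by
  obtain ⟨C, B, hC, hB, h⟩ := exp_norm hf
  refine ⟨C * Real.exp B, B, fun z => ?_⟩
  let e : V n := Pi.single j 1
  have he : ‖e‖ ≤ 1 := by
    rw [pi_norm_le_iff_of_nonneg zero_le_one]
    intro i
    by_cases hi : i = j
    · subst hi; simp [e]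
    · simp [e, Pi.single_eq_of_ne hi]
  have hg : ∀ w : ℂ, HasDerivAt (fun w : ℂ => f (z + w • e)) (fderiv ℂ f (z + w • e) e) w := by
    intro w
    have h1 : HasDerivAt (fun w : ℂ => z + w • e) ((1 : ℂ) • e) w :=
      ((hasDerivAt_id w).smul_const e).const_add z
    rw [one_smul] at h1
    exact (hf.1 (z + w • e)).hasFDerivAt.comp_hasDerivAt w h1
  have hd : Differentiable ℂ (fun w : ℂ => f (z + w • e)) := fun w => (hg w).differentiableAt
  have h2 := Complex.norm_deriv_le_of_forall_mem_sphere_norm_le (c := (0 : ℂ)) (R := 1)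
    (C := C * Real.exp (B * (‖z‖ + 1))) one_pos hd.diffContOnCl (by
      intro w hw
      have hw' : ‖w‖ = 1 := by simpa using hw
      refine (h _).trans (mul_le_mul_of_nonneg_left (Real.exp_le_exp.2 ?_) hC)
      refine mul_le_mul_of_nonneg_left ?_ hB
      calc ‖z + w • e‖ ≤ ‖z‖ + ‖w • e‖ := norm_add_le _ _
        _ ≤ ‖z‖ + 1 := by rw [norm_smul, hw', one_mul]; linarith)
  rw [(hg 0).deriv, zero_smul, add_zero, div_one] at h2
  refine h2.trans (le_of_eq ?_)
  rw [mul_add, mul_one, Real.exp_add]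
  ring

theorem exp_wd (hWD : S_WD) {n : ℕ} {f : V n → ℂ} (hf : ExpType f) (j : Fin n) :
    ExpType (wd j f) := by
  obtain ⟨-, h1, h2, -⟩ := (hWD n j).2.2.2.2 f hf.1
  obtain ⟨C, B, h⟩ := exp_fderiv hf j
  exact ⟨h1, C, B, fun z => by rw [h2]; exact h z⟩

theorem ent_dl (hWD : S_WD) {n : ℕ} {f : V n → ℂ} (hf : Entire f) (l : List (Fin n)) :
    Entire (dl l f) := by
  induction l with
  | nil => exact hf
  | cons j l ih => exact ((hWD n j).2.2.2.2 (dl l f) ih).2.1

theorem exp_dl (hWD : S_WD) {n : ℕ} {f : V n → ℂ} (hf : ExpType f) (l : List (Fin n)) :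
    ExpType (dl l f) := by
  induction l with
  | nil => exact hf
  | cons j l ih => exact exp_wd hWD ih j

theorem real_diff {n : ℕ} {f : V n → ℂ} (hf : Entire f) : Differentiable ℝ f :=
  Differentiable.restrictScalars ℝ (show Differentiable ℂ f from hf)

theorem dl_sub (hWD : S_WD) {n : ℕ} {f g : V n → ℂ} (hf : Entire f) (hg : Entire g)
    (l : List (Fin n)) : dl l (fun y => f y - g y) = fun z => dl l f z - dl l g z := by
  induction l with
  | nil => rfl
  | cons j l ih =>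
    show wd j (dl l (fun y => f y - g y)) = fun z => wd j (dl l f) z - wd j (dl l g) z
    rw [ih]
    have hF := ent_dl hWD hf l
    have hG := ent_dl hWD hg l
    have hG' : Entire (fun y => (-1 : ℂ) * dl l g y) :=
      Differentiable.fun_mul (differentiable_const _) hG
    have e : (fun z => dl l f z - dl l g z) = fun y => dl l f y + (-1 : ℂ) * dl l g y := by
      funext z; ring
    rw [e]
    funext z
    rw [((hWD n j).1 _ _ (real_diff hF) (real_diff hG') z).1,
      (hWD n j).2.1 (-1) _ (real_diff hG) z]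
    ring

theorem pow_bound (k : ℕ) (x : ℝ) (hx : 0 ≤ x) :
    (1 + x) ^ k ≤ (k.factorial : ℝ) * Real.exp 1 * Real.exp x := by
  have h1 := Real.pow_div_factorial_le_exp (1 + x) (by linarith) k
  have h2 : (0 : ℝ) < (k.factorial : ℝ) := by exact_mod_cast k.factorial_pos
  rw [div_le_iff₀ h2, Real.exp_add] at h1
  linarith

theorem zpow_le_abs (a : ℝ) (ha : 1 ≤ a) (s : ℤ) : a ^ s ≤ a ^ s.natAbs := by
  rw [← zpow_natCast]
  exact zpow_le_zpow_right₀ ha (by omega)

theorem main (hWD : S_WD) : S_EXT := by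
  intro n
  refine ⟨fun f P hf => ⟨exp_mul (exp_poly P) hf, ?_⟩, fun f g hf hg => exp_sub hf hg, ?_, ?_, ?_⟩
  · exact exp_sum P.support _ fun α => exp_mul (exp_const _) (exp_dl hWD hf _)
  · intro P f g hf hg z
    unfold PD
    rw [← Finset.sum_sub_distrib]
    refine Finset.sum_congr rfl fun α _ => ?_
    rw [dl_sub hWD hf hg]
    ring
  · rintro Φ s f hS ⟨hf, C, hC⟩
    obtain ⟨C₀, hC₀⟩ := hS.2 0
    refine ⟨hf, |C| * Real.exp |C₀|, ((s.natAbs : ℝ) + |C₀|) * √(n : ℝ), fun z => (hC z).trans ?_⟩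
    have h1 : Φ z ≤ |C₀| * (1 + nm z) := by
      have h2 := hC₀ z
      rw [norm_iteratedFDeriv_zero, Complex.norm_real, Real.norm_eq_abs] at h2
      have h3 : (1 + nm z) ^ ((1 : ℤ) - ((0 : ℕ) : ℤ)) = 1 + nm z := by simp
      rw [h3] at h2
      have h4 := nm_nonneg z
      exact (le_abs_self _).trans (h2.trans (mul_le_mul_of_nonneg_right (le_abs_self _)
        (by linarith)))
    have hnm := nm_nonneg z
    have h5 : (1 + nm z) ^ s ≤ Real.exp ((s.natAbs : ℝ) * nm z) := by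
      refine (zpow_le_abs _ (by linarith) s).trans ?_
      rw [Real.exp_nat_mul]
      refine pow_le_pow_left₀ (by linarith) ?_ _
      have := Real.add_one_le_exp (nm z)
      linarith
    calc C * (1 + nm z) ^ s * Real.exp (Φ z)
        ≤ |C| * Real.exp ((s.natAbs : ℝ) * nm z) * Real.exp (|C₀| * (1 + nm z)) := by
          refine mul_le_mul ?_ (Real.exp_le_exp.2 h1) (Real.exp_pos _).le
            (mul_nonneg (abs_nonneg _) (Real.exp_pos _).le)
          exact (mul_le_mul_of_nonneg_right (le_abs_self C)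
            (zpow_nonneg (by linarith) _)).trans (mul_le_mul_of_nonneg_left h5 (abs_nonneg _))
      _ = |C| * Real.exp |C₀| * Real.exp (((s.natAbs : ℝ) + |C₀|) * nm z) := by
          rw [mul_assoc, mul_assoc, ← Real.exp_add, ← Real.exp_add]
          congr 2
          ring
      _ ≤ |C| * Real.exp |C₀| * Real.exp (((s.natAbs : ℝ) + |C₀|) * √(n : ℝ) * ‖z‖) := by
          refine mul_le_mul_of_nonneg_left (Real.exp_le_exp.2 ?_)
            (mul_nonneg (abs_nonneg _) (Real.exp_pos _).le)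
          rw [mul_assoc]
          exact mul_le_mul_of_nonneg_left (nm_le_norm z)
            (add_nonneg (Nat.cast_nonneg _) (abs_nonneg _))
  · intro f hf
    obtain ⟨C, B, hC, hB, h⟩ := exp_norm hf
    refine ⟨B + 1, fun A Φ hA hΦ hlow t => ⟨hf.1, ?_⟩⟩
    obtain ⟨m, hm⟩ := (isCompact_closedBall (0 : V n) 1).exists_bound_of_continuousOn
      hΦ.continuousOn
    set k := t.natAbs with hk
    refine ⟨C * ((k.factorial : ℝ) * Real.exp 1) + C * Real.exp B * 2 ^ k * Real.exp m,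
      fun z => ?_⟩
    have hnm := nm_nonneg z
    have hfac : (0 : ℝ) ≤ (k.factorial : ℝ) * Real.exp 1 :=
      mul_nonneg (Nat.cast_nonneg _) (Real.exp_pos _).le
    have hc1 : 0 ≤ C * ((k.factorial : ℝ) * Real.exp 1) := mul_nonneg hC hfac
    have hc2 : 0 ≤ C * Real.exp B * 2 ^ k * Real.exp m := by positivity
    have hpos : 0 ≤ (1 + nm z) ^ t * Real.exp (Φ z) :=
      mul_nonneg (zpow_nonneg (by linarith) _) (Real.exp_pos _).le
    have hinv : (1 : ℝ) ≤ (1 + nm z) ^ t * (1 + nm z) ^ k := by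
      rw [← zpow_natCast, ← zpow_add₀ (by linarith)]
      exact one_le_zpow₀ (by linarith) (by omega)
    rw [mul_assoc, add_mul]
    rcases le_total 1 (nm z) with h1 | h1
    · have h2 : ‖f z‖ ≤ C * ((k.factorial : ℝ) * Real.exp 1) *
          ((1 + nm z) ^ t * Real.exp (Φ z)) := by
        have h3 : ‖f z‖ ≤ C * Real.exp (B * nm z) :=
          (h z).trans (mul_le_mul_of_nonneg_left (Real.exp_le_exp.2
            (mul_le_mul_of_nonneg_left (norm_le_nm z) hB)) hC)
        have h4 : Real.exp (B * nm z) * Real.exp (nm z) ≤ Real.exp (Φ z) := by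
          rw [← Real.exp_add]
          refine Real.exp_le_exp.2 (le_trans ?_ (hlow z h1))
          nlinarith
        have h5 := pow_bound k (nm z) hnm
        have h6 : (1 : ℝ) ≤ (1 + nm z) ^ t * ((k.factorial : ℝ) * Real.exp 1 * Real.exp (nm z)) :=
          hinv.trans (mul_le_mul_of_nonneg_left h5 (zpow_nonneg (by linarith) _))
        calc ‖f z‖ ≤ C * Real.exp (B * nm z) * 1 := by rw [mul_one]; exact h3
          _ ≤ C * Real.exp (B * nm z) *
              ((1 + nm z) ^ t * ((k.factorial : ℝ) * Real.exp 1 * Real.exp (nm z))) :=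
            mul_le_mul_of_nonneg_left h6 (mul_nonneg hC (Real.exp_pos _).le)
          _ = C * ((k.factorial : ℝ) * Real.exp 1) * ((1 + nm z) ^ t *
              (Real.exp (B * nm z) * Real.exp (nm z))) := by ring
          _ ≤ _ := mul_le_mul_of_nonneg_left (mul_le_mul_of_nonneg_left h4
              (zpow_nonneg (by linarith) _)) hc1
      have h7 : 0 ≤ C * Real.exp B * 2 ^ k * Real.exp m * ((1 + nm z) ^ t * Real.exp (Φ z)) :=
        mul_nonneg hc2 hpos
      linarith
    · have hz1 : ‖z‖ ≤ 1 := (norm_le_nm z).trans h1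
      have h2 : ‖f z‖ ≤ C * Real.exp B * 2 ^ k * Real.exp m *
          ((1 + nm z) ^ t * Real.exp (Φ z)) := by
        have h3 : ‖f z‖ ≤ C * Real.exp B :=
          (h z).trans (mul_le_mul_of_nonneg_left (Real.exp_le_exp.2
            (mul_le_of_le_one_right hB hz1)) hC)
        have h4 : (1 : ℝ) ≤ Real.exp m * Real.exp (Φ z) := by
          rw [← Real.exp_add]
          refine Real.one_le_exp ?_
          have h5 := hm z (by simpa using hz1)
          rw [Real.norm_eq_abs] at h5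
          have h6 := neg_abs_le (Φ z)
          linarith
        have h5 : (1 : ℝ) ≤ 2 ^ k * (1 + nm z) ^ t := by
          have h6 : (1 + nm z) ^ k ≤ 2 ^ k := pow_le_pow_left₀ (by linarith) (by linarith) k
          calc (1 : ℝ) ≤ (1 + nm z) ^ t * (1 + nm z) ^ k := hinv
            _ ≤ (1 + nm z) ^ t * 2 ^ k :=
              mul_le_mul_of_nonneg_left h6 (zpow_nonneg (by linarith) _)
            _ = 2 ^ k * (1 + nm z) ^ t := mul_comm _ _
        calc ‖f z‖ ≤ C * Real.exp B * 1 * 1 := by rw [mul_one, mul_one]; exact h3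
          _ ≤ C * Real.exp B * (2 ^ k * (1 + nm z) ^ t) * (Real.exp m * Real.exp (Φ z)) := by
            refine mul_le_mul (mul_le_mul_of_nonneg_left h5
              (mul_nonneg hC (Real.exp_pos _).le)) h4 zero_le_one ?_
            exact mul_nonneg (mul_nonneg hC (Real.exp_pos _).le) (by linarith)
          _ = _ := by ring
      have h7 : 0 ≤ C * ((k.factorial : ℝ) * Real.exp 1) * ((1 + nm z) ^ t * Real.exp (Φ z)) :=
        mul_nonneg hc1 hpos
      linarith

end Pool.Agent.Helper71.FN.EXT
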